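import Pool.Agent.Q216.IR.Maj

set_option autoImplicit false

/-!
# Zero-sum subsets of nonzero rational numbers

Sign coupling: exchanging a negative element for a positive one increases the sum; comparing the
levels `k` and `k + 1` (numbers of positive elements) by double counting.
-/

namespace Pool.Agent.Q216.IR

open Finset

variable {α : Type*} [DecidableEq α]

/-- the `r`-subsets of `A` with exactly `k` positive elements -/
def lev (A : Finset α) (w : α → ℚ) (r k : ℕ) : Finset (Finset α) :=
  (A.powersetCard r).filter (fun B => #(B.filter (fun a => 0 < w a)) = k)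

/-- those with zero sum, positive sum, nonnegative sum -/
def levZ (A : Finset α) (w : α → ℚ) (r k : ℕ) : Finset (Finset α) :=
  (lev A w r k).filter (fun B => ∑ b ∈ B, w b = 0)

def levP (A : Finset α) (w : α → ℚ) (r k : ℕ) : Finset (Finset α) :=
  (lev A w r k).filter (fun B => 0 < ∑ b ∈ B, w b)

def levN (A : Finset α) (w : α → ℚ) (r k : ℕ) : Finset (Finset α) :=
  (lev A w r k).filter (fun B => 0 ≤ ∑ b ∈ B, w b)

theorem card_levN (A : Finset α) (w : α → ℚ) (r k : ℕ) :
    #(levN A w r k) = #(levZ A w r k) + #(levP A w r k) := by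
  rw [levN, levZ, levP, ← card_union_of_disjoint]
  · congr 1
    ext B
    simp only [mem_filter, mem_union]
    constructor
    · rintro ⟨h1, h2⟩
      rcases h2.eq_or_lt with h | h
      · exact Or.inl ⟨h1, h.symm⟩
      · exact Or.inr ⟨h1, h⟩
    · rintro (⟨h1, h2⟩ | ⟨h1, h2⟩)
      · exact ⟨h1, h2.ge⟩
      · exact ⟨h1, h2.le⟩
  · rw [disjoint_left]
    intro B h1 h2
    simp only [mem_filter] at h1 h2
    rw [h1.2] at h2
    exact lt_irrefl _ h2.2

/-- a level is a product -/
theorem card_lev (A : Finset α) (w : α → ℚ) (r k : ℕ) (hkr : k ≤ r) :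
    #(lev A w r k) = (#(A.filter (fun a => 0 < w a))).choose k *
      (#(A.filter (fun a => ¬ 0 < w a))).choose (r - k) := by
  rw [← card_powersetCard k, ← card_powersetCard (r - k), ← card_product]
  refine card_bij' (fun B _ => (B.filter (fun a => 0 < w a), B.filter (fun a => ¬ 0 < w a)))
    (fun p _ => p.1 ∪ p.2) ?_ ?_ ?_ ?_
  · intro B hB
    simp only [lev, mem_filter, mem_powersetCard] at hB
    obtain ⟨⟨hBA, hBr⟩, hBk⟩ := hB
    have hsum := card_filter_add_card_filter_not (s := B) (fun a => 0 < w a)
    simp only [mem_product, mem_powersetCard]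
    refine ⟨⟨filter_subset_filter _ hBA, hBk⟩, filter_subset_filter _ hBA, ?_⟩
    omega
  · rintro ⟨K, L⟩ hp
    simp only [mem_product, mem_powersetCard] at hp
    obtain ⟨⟨hK, hKk⟩, hL, hLk⟩ := hp
    have hd : Disjoint K L := by
      rw [disjoint_left]
      intro a h1 h2
      exact (mem_filter.1 (hL h2)).2 (mem_filter.1 (hK h1)).2
    have hf : (K ∪ L).filter (fun a => 0 < w a) = K := by
      ext a
      simp only [mem_filter, mem_union]
      constructor
      · rintro ⟨h1 | h1, h2⟩
        · exact h1
        · exact absurd h2 (mem_filter.1 (hL h1)).2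
      · intro h1
        exact ⟨Or.inl h1, (mem_filter.1 (hK h1)).2⟩
    simp only [lev, mem_filter, mem_powersetCard]
    refine ⟨⟨union_subset (hK.trans (filter_subset _ _)) (hL.trans (filter_subset _ _)), ?_⟩, ?_⟩
    · rw [card_union_of_disjoint hd]; omega
    · rw [hf, hKk]
  · intro B _
    exact filter_union_filter_not_eq _ _
  · rintro ⟨K, L⟩ hp
    simp only [mem_product, mem_powersetCard] at hp
    obtain ⟨⟨hK, hKk⟩, hL, hLk⟩ := hp
    ext a
    · simp only [mem_filter, mem_union]
      constructor
      · rintro ⟨h1 | h1, h2⟩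
        · exact h1
        · exact absurd h2 (mem_filter.1 (hL h1)).2
      · intro h1
        exact ⟨Or.inl h1, (mem_filter.1 (hK h1)).2⟩
    · simp only [mem_filter, mem_union]
      constructor
      · rintro ⟨h1 | h1, h2⟩
        · exact absurd (mem_filter.1 (hK h1)).2 h2
        · exact h1
      · intro h1
        exact ⟨Or.inr h1, (mem_filter.1 (hL h1)).2⟩

/-- exchange relation -/
def Ex (w : α → ℚ) (B B' : Finset α) : Prop :=
  ∃ y ∈ B, ¬ 0 < w y ∧ ∃ x, x ∉ B ∧ 0 < w x ∧ B' = insert x (B.erase y)

noncomputable instance (w : α → ℚ) : DecidableRel (Ex w) := fun _ _ => Classical.propDecidable _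

theorem exchange (A : Finset α) (w : α → ℚ) (hw : ∀ a ∈ A, w a ≠ 0) (r k : ℕ) (hkr : k + 1 ≤ r) :
    #(levN A w r k) * ((#(A.filter (fun a => 0 < w a)) - k) * (r - k)) ≤
      #(levP A w r (k + 1)) * ((k + 1) * (#(A.filter (fun a => ¬ 0 < w a)) - (r - (k + 1)))) := by
  set P := A.filter (fun a => 0 < w a) with hP
  set N := A.filter (fun a => ¬ 0 < w a) with hN
  apply card_mul_le_card_mul (Ex w)
  · intro B hB
    simp only [levN, lev, mem_filter, mem_powersetCard] at hB
    obtain ⟨⟨⟨hBA, hBr⟩, hBk⟩, hB0⟩ := hB
    have hsum := card_filter_add_card_filter_not (s := B) (fun a => 0 < w a)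
    -- injection from (P \ B) × (B ∩ N)
    have hcard : #((P \ B) ×ˢ (B.filter (fun a => ¬ 0 < w a))) = (#P - k) * (r - k) := by
      rw [card_product]
      congr 1
      · have : P ∩ B = B.filter (fun a => 0 < w a) := by
          ext a
          simp only [hP, mem_inter, mem_filter]
          constructor
          · rintro ⟨⟨_, h1⟩, h2⟩; exact ⟨h2, h1⟩
          · rintro ⟨h1, h2⟩; exact ⟨⟨hBA h1, h2⟩, h1⟩
        rw [card_sdiff, inter_comm, this, hBk]
      · omega
    rw [← hcard]
    apply card_le_card_of_injOn (fun p => insert p.1 (B.erase p.2))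
    · rintro ⟨x, y⟩ hxy
      simp only [coe_product, coe_sdiff, coe_filter, Set.mem_prod, Set.mem_sdiff,
        Set.mem_ofPred_eq, mem_coe] at hxy
      obtain ⟨⟨hxP, hxB⟩, hyB, hyn⟩ := hxy
      have hxA := (mem_filter.1 hxP).1
      have hx0 := (mem_filter.1 hxP).2
      have hyA := hBA hyB
      have hylt : w y < 0 := lt_of_le_of_ne (not_lt.1 hyn) (hw y hyA)
      have hxe : x ∉ B.erase y := fun h => hxB (mem_of_mem_erase h)
      simp only [mem_coe, bipartiteAbove, mem_filter, levP, lev, mem_powersetCard]
      refine ⟨⟨⟨⟨?_, ?_⟩, ?_⟩, ?_⟩, ?_⟩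
      · intro a ha
        rcases mem_insert.1 ha with rfl | h
        · exact hxA
        · exact hBA (mem_of_mem_erase h)
      · rw [card_insert_of_notMem hxe, card_erase_of_mem hyB, hBr]
        omega
      · have hyf : y ∉ B.filter (fun a => 0 < w a) := fun h => hyn (mem_filter.1 h).2
        rw [filter_insert, if_pos hx0, card_insert_of_notMem (fun h => hxe (mem_filter.1 h).1),
          filter_erase, erase_eq_of_notMem hyf, hBk]
      · rw [sum_insert hxe]
        have := add_sum_erase B w hyB
        linarith
      · exact ⟨y, hyB, hyn, x, hxB, hx0, rfl⟩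
    · rintro ⟨x, y⟩ hxy ⟨x', y'⟩ hxy' h
      simp only [coe_product, coe_sdiff, coe_filter, Set.mem_prod, Set.mem_sdiff,
        Set.mem_ofPred_eq, mem_coe] at hxy hxy' h
      obtain ⟨⟨hxP, hxB⟩, hyB, hyn⟩ := hxy
      obtain ⟨⟨hxP', hxB'⟩, hyB', hyn'⟩ := hxy'
      have e1 : x = x' := by
        have h1 : x ∈ insert x' (B.erase y') := by rw [← h]; exact mem_insert_self _ _
        rcases mem_insert.1 h1 with h2 | h2
        · exact h2
        · exact absurd (mem_of_mem_erase h2) hxB
      subst e1
      have e2 : y = y' := by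
        by_contra hne
        have h1 : y ∈ insert x (B.erase y') :=
          mem_insert_of_mem (mem_erase.2 ⟨hne, hyB⟩)
        rw [← h] at h1
        rcases mem_insert.1 h1 with h2 | h2
        · exact hxB (h2 ▸ hyB)
        · exact (notMem_erase y B) h2
      subst e2
      rfl
  · intro B' hB'
    simp only [levP, lev, mem_filter, mem_powersetCard] at hB'
    obtain ⟨⟨⟨hBA, hBr⟩, hBk⟩, hB0⟩ := hB'
    have hsum := card_filter_add_card_filter_not (s := B') (fun a => 0 < w a)
    have hcard : #((B'.filter (fun a => 0 < w a)) ×ˢ (N \ B')) = (k + 1) * (#N - (r - (k + 1))) := by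
      rw [card_product, hBk]
      congr 1
      have : N ∩ B' = B'.filter (fun a => ¬ 0 < w a) := by
        ext a
        simp only [hN, mem_inter, mem_filter]
        constructor
        · rintro ⟨⟨_, h1⟩, h2⟩; exact ⟨h2, h1⟩
        · rintro ⟨h1, h2⟩; exact ⟨⟨hBA h1, h2⟩, h1⟩
      rw [card_sdiff, inter_comm, this]
      omega
    rw [← hcard]
    apply card_le_card_of_surjOn (fun p => insert p.2 (B'.erase p.1))
    intro B hB
    simp only [mem_coe, bipartiteBelow, mem_filter, levN, lev, mem_powersetCard] at hB
    obtain ⟨⟨⟨⟨hBA2, _⟩, _⟩, _⟩, y, hyB, hyn, x, hxB, hx0, rfl⟩ := hB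
    refine ⟨(x, y), ?_, ?_⟩
    · simp only [coe_product, coe_sdiff, coe_filter, Set.mem_prod, Set.mem_sdiff,
        Set.mem_ofPred_eq, mem_coe]
      refine ⟨⟨mem_insert_self _ _, hx0⟩, mem_filter.2 ⟨hBA2 hyB, hyn⟩, ?_⟩
      intro h
      rcases mem_insert.1 h with h2 | h2
      · exact hxB (h2 ▸ hyB)
      · exact (notMem_erase y B) h2
    · simp only
      rw [erase_insert (fun h => hxB (mem_of_mem_erase h)), insert_erase hyB]

/-- if `c_k` are the sizes of the levels then `c_k (p - k)(r - k) = c_{k+1} (k+1)(q - (r-k-1))` -/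
theorem lev_ratio (p q r k : ℕ) (hkr : k + 1 ≤ r) :
    p.choose k * q.choose (r - k) * ((p - k) * (r - k)) =
      p.choose (k + 1) * q.choose (r - (k + 1)) * ((k + 1) * (q - (r - (k + 1)))) := by
  have h1 := Nat.choose_succ_right_eq p k
  have h2 := Nat.choose_succ_right_eq q (r - (k + 1))
  have e : r - (k + 1) + 1 = r - k := by omega
  rw [e] at h2
  calc p.choose k * q.choose (r - k) * ((p - k) * (r - k))
      = (p.choose k * (p - k)) * (q.choose (r - k) * (r - k)) := by ring
    _ = (p.choose (k + 1) * (k + 1)) * (q.choose (r - (k + 1)) * (q - (r - (k + 1)))) := by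
        rw [← h1, h2]
    _ = _ := by ring

theorem main_count (A : Finset α) (w : α → ℚ) (hw : ∀ a ∈ A, w a ≠ 0) (r F : ℕ) (hr : 2 ≤ r)
    (hF : ∀ k, 1 ≤ k → k + 1 ≤ r → (#(A.filter (fun a => 0 < w a))).choose k *
      (#(A.filter (fun a => ¬ 0 < w a))).choose (r - k) ≤ F) :
    #((A.powersetCard r).filter (fun B => ∑ b ∈ B, w b = 0)) ≤ F := by
  set p := #(A.filter (fun a => 0 < w a)) with hp
  set q := #(A.filter (fun a => ¬ 0 < w a)) with hq
  set c : ℕ → ℕ := fun k => p.choose k * q.choose (r - k) with hc
  have hclev : ∀ k, k ≤ r → #(lev A w r k) = c k := fun k hk => card_lev A w r k hk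
  -- the total count
  have htot : #((A.powersetCard r).filter (fun B => ∑ b ∈ B, w b = 0)) ≤
      ∑ k ∈ Ico 1 r, #(levZ A w r k) := by
    have hsub : (A.powersetCard r).filter (fun B => ∑ b ∈ B, w b = 0) ⊆
        (Ico 1 r).biUnion (fun k => levZ A w r k) := by
      intro B hB
      simp only [mem_filter, mem_powersetCard] at hB
      obtain ⟨⟨hBA, hBr⟩, hB0⟩ := hB
      simp only [mem_biUnion, mem_Ico, levZ, lev, mem_filter, mem_powersetCard]
      have hsum := card_filter_add_card_filter_not (s := B) (fun a => 0 < w a)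
      refine ⟨#(B.filter (fun a => 0 < w a)), ⟨?_, ?_⟩, ⟨⟨hBA, hBr⟩, rfl⟩, hB0⟩
      · by_contra hcon
        have h0 : #(B.filter (fun a => 0 < w a)) = 0 := by omega
        rw [card_eq_zero, filter_eq_empty_iff] at h0
        have : ∑ b ∈ B, w b < 0 := by
          apply sum_neg
          · intro b hb
            exact lt_of_le_of_ne (not_lt.1 (h0 hb)) (hw b (hBA hb))
          · rw [← card_pos]; omega
        linarith
      · by_contra hcon
        have h0 : #(B.filter (fun a => ¬ 0 < w a)) = 0 := by omega
        rw [card_eq_zero, filter_eq_empty_iff] at h0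
        have : 0 < ∑ b ∈ B, w b := by
          apply sum_pos
          · intro b hb
            exact not_not.1 (h0 hb)
          · rw [← card_pos]; omega
        linarith
    exact (card_le_card hsub).trans card_biUnion_le
  -- the comparison of consecutive levels
  have hcomp : ∀ k, k + 1 ≤ r → 0 < c k → #(levN A w r k) * c (k + 1) ≤ #(levP A w r (k + 1)) * c k := by
    intro k hk hck
    have h1 := exchange A w hw r k hk
    have h2 := lev_ratio p q r k hk
    set u := (p - k) * (r - k)
    set v := (k + 1) * (q - (r - (k + 1))) with hv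
    have hv0 : 0 < v := by
      rw [hv]
      apply Nat.mul_pos (by omega)
      by_contra hcon
      have : q.choose (r - k) = 0 := Nat.choose_eq_zero_of_lt (by omega)
      rw [hc] at hck
      simp only [this, mul_zero, lt_self_iff_false] at hck
    apply Nat.le_of_mul_le_mul_right _ hv0
    calc #(levN A w r k) * c (k + 1) * v = #(levN A w r k) * (c (k + 1) * v) := by ring
      _ = #(levN A w r k) * (c k * u) := by rw [hc]; simp only; rw [← h2]
      _ = (#(levN A w r k) * u) * c k := by ring
      _ ≤ (#(levP A w r (k + 1)) * v) * c k := Nat.mul_le_mul_right _ h1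
      _ = _ := by ring
  have hZ0 : ∀ k, k ≤ r → c k = 0 → #(levZ A w r k) = 0 := by
    intro k hk h0
    have : #(levZ A w r k) ≤ #(lev A w r k) := card_le_card (filter_subset _ _)
    rw [hclev k hk, h0] at this
    omega
  -- first claim
  have claim : ∀ k, 1 ≤ k → k ≤ r → (∑ j ∈ Ico 1 k, #(levZ A w r j)) * c k ≤ F * #(levP A w r k) := by
    intro k hk1
    induction k, hk1 using Nat.le_induction with
    | base => intro _; simp
    | succ k hk1 ih =>
      intro hkr
      rcases Nat.eq_zero_or_pos (c (k + 1)) with h0 | h0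
      · rw [h0]; simp
      rcases Nat.eq_zero_or_pos (c k) with hck | hck
      · -- all earlier levels are empty
        have hall : ∀ j ∈ Ico 1 (k + 1), #(levZ A w r j) = 0 := by
          intro j hj
          rw [mem_Ico] at hj
          apply hZ0 j (by omega)
          have hp1 : k + 1 ≤ p := by
            by_contra hcon
            rw [hc] at h0
            simp only [Nat.choose_eq_zero_of_lt (show p < k + 1 by omega), zero_mul,
              lt_self_iff_false] at h0
          have hq1 : q < r - k := by
            rw [hc] at hck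
            simp only at hck
            rcases Nat.mul_eq_zero.1 hck with h | h
            · exfalso
              have := Nat.choose_pos (show k ≤ p by omega)
              omega
            · by_contra hcon
              have := Nat.choose_pos (show r - k ≤ q by omega)
              omega
          rw [hc]
          simp only
          rw [Nat.choose_eq_zero_of_lt (show q < r - j by omega), mul_zero]
        rw [sum_eq_zero hall]
        simp
      · have h1 := ih (by omega)
        have h2 := hcomp k hkr hck
        have h3 := card_levN A w r k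
        have h4 : c k ≤ F := hF k hk1 hkr
        rw [sum_Ico_succ_top hk1]
        apply Nat.le_of_mul_le_mul_right _ hck
        have h5 : ((∑ j ∈ Ico 1 k, #(levZ A w r j)) + #(levZ A w r k)) * c k ≤
            F * #(levN A w r k) := by
          rw [h3, add_mul, mul_add]
          have : #(levZ A w r k) * c k ≤ F * #(levZ A w r k) := by
            rw [mul_comm]; exact Nat.mul_le_mul_right _ h4
          linarith
        calc ((∑ j ∈ Ico 1 k, #(levZ A w r j)) + #(levZ A w r k)) * c (k + 1) * c k
            = (((∑ j ∈ Ico 1 k, #(levZ A w r j)) + #(levZ A w r k)) * c k) * c (k + 1) := by ring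
          _ ≤ (F * #(levN A w r k)) * c (k + 1) := Nat.mul_le_mul_right _ h5
          _ = F * (#(levN A w r k) * c (k + 1)) := by ring
          _ ≤ F * (#(levP A w r (k + 1)) * c k) := Nat.mul_le_mul_left _ h2
          _ = _ := by ring
  -- second claim
  have claim2 : ∀ k, 1 ≤ k → k ≤ r → ∑ j ∈ Ico 1 k, #(levZ A w r j) ≤ F := by
    intro k hk1
    induction k, hk1 using Nat.le_induction with
    | base => intro _; simp
    | succ k hk1 ih =>
      intro hkr
      rw [sum_Ico_succ_top hk1]
      rcases Nat.eq_zero_or_pos (c k) with hck | hck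
      · rw [hZ0 k (by omega) hck]
        simpa using ih (by omega)
      · have h1 := claim k hk1 (by omega)
        have h3 := card_levN A w r k
        have h4 : c k ≤ F := hF k hk1 hkr
        apply Nat.le_of_mul_le_mul_right _ hck
        have h6 : #(levN A w r k) ≤ c k := by
          rw [← hclev k (by omega)]
          exact card_le_card (filter_subset _ _)
        calc ((∑ j ∈ Ico 1 k, #(levZ A w r j)) + #(levZ A w r k)) * c k
            ≤ F * #(levP A w r k) + F * #(levZ A w r k) := by
              rw [add_mul]
              have : #(levZ A w r k) * c k ≤ F * #(levZ A w r k) := by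
                rw [mul_comm]; exact Nat.mul_le_mul_right _ h4
              linarith
          _ = F * #(levN A w r k) := by rw [h3]; ring
          _ ≤ F * c k := Nat.mul_le_mul_left _ h6
  exact htot.trans (claim2 r (by omega) le_rfl)

end Pool.Agent.Q216.IR
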