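import Pool.Agent.Q216.IR.Num

set_option autoImplicit false

/-!
# Majorisation along balanced pairs
-/

namespace Pool.Agent.Q216.IR

open Finset

/-- `log C(k + I, k)` -/
noncomputable def la (k I : ℕ) : ℝ := ∑ i ∈ range I, Real.log (1 + (k : ℝ) / (i + 1))

/-- `∑_{i ≤ I} i / k` -/
noncomputable def lw (k I : ℕ) : ℝ := (I : ℝ) * (I + 1) / (2 * k)

/-- the reference value -/
noncomputable def LB (r t : ℕ) : ℝ := la 1 (t / r) + la (r - 1) (t - t / r)

noncomputable def SX (r t : ℕ) : ℝ := lw 1 (t / r) + lw (r - 1) (t - t / r)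

theorem la_succ (k I : ℕ) : la k (I + 1) = la k I + Real.log (1 + (k : ℝ) / (I + 1)) := by
  simp [la, sum_range_succ]

theorem lw_succ (k I : ℕ) (hk : 1 ≤ k) : lw k (I + 1) = lw k I + (I + 1 : ℝ) / k := by
  have : (k : ℝ) ≠ 0 := by positivity
  simp only [lw]
  push_cast
  field_simp
  ring

/-- the step of the reference sequence -/
theorem ref_step (r t : ℕ) (hr : 2 ≤ r) : ∃ x : ℝ, 0 < x ∧
    LB r (t + 1) = LB r t + Real.log (1 + 1 / x) ∧ SX r (t + 1) = SX r t + x := by
  have hr1 : (1 : ℝ) ≤ ((r - 1 : ℕ) : ℝ) := by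
    have : 1 ≤ r - 1 := by omega
    exact_mod_cast this
  have hdiv : (t + 1) / r = t / r ∨ (t + 1) / r = t / r + 1 := by
    rcases Nat.succ_div (b := r) (a := t) with h
    rw [h]
    split_ifs <;> simp
  have hle : t / r ≤ t := Nat.div_le_self _ _
  rcases hdiv with h | h
  · have e : t + 1 - (t + 1) / r = (t - t / r) + 1 := by omega
    refine ⟨((t - t / r : ℕ) + 1 : ℝ) / ((r - 1 : ℕ) : ℝ), by positivity, ?_, ?_⟩
    · rw [LB, LB, e, h, la_succ]
      rw [one_div_div]
      ring
    · rw [SX, SX, e, h, lw_succ _ _ (by omega)]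
      ring
  · have e : t + 1 - (t + 1) / r = t - t / r := by omega
    refine ⟨((t / r : ℕ) + 1 : ℝ), by positivity, ?_, ?_⟩
    · rw [LB, LB, e, h, la_succ]
      push_cast
      ring
    · rw [SX, SX, e, h, lw_succ _ _ le_rfl]
      push_cast
      ring

/-- the partial sums of the reference sequence are the smallest ones -/
theorem S_nonneg (k l I J : ℕ) (hk : 1 ≤ k) (hl : 1 ≤ l) :
    SX (k + l) (I + J) ≤ lw k I + lw l J := by
  set r := k + l with hr
  set t := I + J with ht
  set q := t / r with hq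
  set s := t % r with hs
  have hts : r * q + s = t := Nat.div_add_mod t r
  have hsr : s < r := Nat.mod_lt _ (by omega)
  have hq' : q ≤ t := Nat.div_le_self _ _
  have hk0 : (0 : ℝ) < k := by exact_mod_cast hk
  have hl0 : (0 : ℝ) < l := by exact_mod_cast hl
  have hr1 : ((r - 1 : ℕ) : ℝ) = k + l - 1 := by
    rw [Nat.cast_sub (by omega), hr]; push_cast; ring
  have hr1p : (0 : ℝ) < (k : ℝ) + l - 1 := by
    have : (1 : ℝ) ≤ k := by exact_mod_cast hk
    linarith
  have htq : ((t - q : ℕ) : ℝ) = t - q := by rw [Nat.cast_sub hq']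
  -- integers i, j
  set i : ℤ := (I : ℤ) - q * k with hi
  set j : ℤ := (J : ℤ) - q * l with hj
  have hij : i + j = s := by
    have : (r : ℤ) * q + s = t := by exact_mod_cast hts
    rw [hi, hj]
    have h2 : (t : ℤ) = I + J := by rw [ht]; push_cast; ring
    have h3 : (r : ℤ) = k + l := by rw [hr]; push_cast; ring
    rw [h2, h3] at this
    linarith
  have hE := quad (k : ℤ) (l : ℤ) i j (by exact_mod_cast hk) (by exact_mod_cast hl)
    (by rw [hij]; positivity) (by rw [hij]; omega)
  have hER : (0 : ℝ) ≤ l * (l - 1) * (i * (i + 1)) + k * (k - 1) * (j * (j + 1)) -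
      2 * k * l * (i * j) := by exact_mod_cast hE
  have hI : (I : ℝ) = i + q * k := by
    have : (I : ℤ) = i + q * k := by rw [hi]; ring
    exact_mod_cast this
  have hJ : (J : ℝ) = j + q * l := by
    have : (J : ℤ) = j + q * l := by rw [hj]; ring
    exact_mod_cast this
  have htR : (t : ℝ) = i + j + q * (k + l) := by
    rw [ht]; push_cast; rw [hI, hJ]; ring
  rw [SX, ← hq, lw, lw, lw, lw, htq, hr1, hI, hJ, htR, ← sub_nonneg]
  have key : ((i : ℝ) + q * k) * (i + q * k + 1) / (2 * k) + (j + q * l) * (j + q * l + 1) / (2 * l) -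
      (q * (q + 1) / (2 * ((1 : ℕ) : ℝ)) + ((i : ℝ) + j + q * (k + l) - q) * (i + j + q * (k + l) - q + 1) /
        (2 * (k + l - 1))) =
      (l * (l - 1) * (i * (i + 1)) + k * (k - 1) * (j * (j + 1)) - 2 * k * l * (i * j)) /
        (2 * k * l * (k + l - 1)) := by
    have := hr1p.ne'
    field_simp
    ring
  rw [key]
  positivity

/-- tangent inequality -/
theorem tangent (x y : ℝ) (hx : 0 < x) (hy : 0 < y) :
    Real.log (1 + 1 / y) + 1 / (y * (y + 1)) * (y - x) ≤ Real.log (1 + 1 / x) := by
  have h1 : 0 < (1 + 1 / x) / (1 + 1 / y) := by positivity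
  have h2 := Real.one_sub_inv_le_log_of_pos h1
  rw [Real.log_div (by positivity) (by positivity)] at h2
  have h3 : 1 - ((1 + 1 / x) / (1 + 1 / y))⁻¹ - 1 / (y * (y + 1)) * (y - x) =
      (y - x) ^ 2 / (y * (x + 1) * (y + 1)) := by
    field_simp
    ring
  have h4 : 0 ≤ (y - x) ^ 2 / (y * (x + 1) * (y + 1)) := by positivity
  linarith

theorem main_balanced (k l : ℕ) (hk : 1 ≤ k) (hl : 1 ≤ l) :
    ∀ t I J : ℕ, I + J = t → l * I ≤ k * (J + 1) → k * J ≤ l * (I + 1) →
      ∀ c : ℝ, 0 ≤ c → c * ((I : ℝ) / k) * ((I : ℝ) / k + 1) ≤ 1 →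
        c * ((J : ℝ) / l) * ((J : ℝ) / l + 1) ≤ 1 →
        la k I + la l J + c * (lw k I + lw l J - SX (k + l) (I + J)) ≤ LB (k + l) t := by
  have hk0 : (0 : ℝ) < k := by exact_mod_cast hk
  have hl0 : (0 : ℝ) < l := by exact_mod_cast hl
  intro t
  induction t with
  | zero =>
    intro I J h _ _ c _ _ _
    obtain ⟨rfl, rfl⟩ : I = 0 ∧ J = 0 := by omega
    simp [la, lw, SX, LB]
  | succ t ih =>
    intro I J hIJ hb1 hb2 c hc hc1 hc2
    obtain ⟨x, hx, hLB, hSX⟩ := ref_step (k + l) t (by omega)
    have hS := S_nonneg k l I J hk hl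
    rcases le_or_gt (k * J) (l * I) with hcase | hcase
    · -- the last step was in the first coordinate
      have hI : 1 ≤ I := by
        by_contra h
        have : I = 0 := by omega
        subst this
        have : k * J = 0 := by omega
        rcases Nat.mul_eq_zero.1 this with h | h <;> omega
      obtain ⟨I', rfl⟩ : ∃ I', I = I' + 1 := ⟨I - 1, by omega⟩
      set y : ℝ := ((I' + 1 : ℕ) : ℝ) / k with hy
      have hy0 : 0 < y := by positivity
      set c0 : ℝ := 1 / (y * (y + 1)) with hc0
      have hc00 : 0 ≤ c0 := by positivity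
      have hcc : c ≤ c0 := by
        rw [hc0, le_div_iff₀ (by positivity)]
        linarith
      have hJy : (J : ℝ) / l ≤ y := by
        rw [hy, div_le_div_iff₀ hl0 hk0]
        have : (J * k : ℕ) ≤ (I' + 1) * l := by nlinarith
        exact_mod_cast this
      have hI'y : (I' : ℝ) / k ≤ y := by
        rw [hy]; push_cast; gcongr; linarith
      have hJ0 : (0 : ℝ) ≤ (J : ℝ) / l := by positivity
      have hI'0 : (0 : ℝ) ≤ (I' : ℝ) / k := by positivity
      have hyy : c0 * y * (y + 1) = 1 := by
        rw [hc0]; field_simp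
      have hb1' : l * I' ≤ k * (J + 1) := by nlinarith
      have h1 := ih I' J (by omega) hb1' (by omega) c0 hc00
        (by
          calc c0 * ((I' : ℝ) / k) * ((I' : ℝ) / k + 1) ≤ c0 * y * (y + 1) := by gcongr
            _ = 1 := hyy)
        (by
          calc c0 * ((J : ℝ) / l) * ((J : ℝ) / l + 1) ≤ c0 * y * (y + 1) := by gcongr
            _ = 1 := hyy)
      have h2 := tangent x y hx hy0
      rw [← hc0] at h2
      have hla : la k (I' + 1) = la k I' + Real.log (1 + 1 / y) := by
        rw [la_succ, hy, one_div_div]; push_cast; rfl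
      have hlw : lw k (I' + 1) = lw k I' + y := by
        rw [lw_succ _ _ hk, hy]; push_cast; rfl
      have hSX' : SX (k + l) (I' + 1 + J) = SX (k + l) (I' + J) + x := by
        have e1 : I' + 1 + J = t + 1 := hIJ
        have e2 : I' + J = t := by omega
        rw [e1, e2, hSX]
      have h3 : c * (lw k (I' + 1) + lw l J - SX (k + l) (I' + 1 + J)) ≤
          c0 * (lw k (I' + 1) + lw l J - SX (k + l) (I' + 1 + J)) :=
        mul_le_mul_of_nonneg_right hcc (by linarith)
      rw [hLB, hla]
      calc la k I' + Real.log (1 + 1 / y) + la l J +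
            c * (lw k (I' + 1) + lw l J - SX (k + l) (I' + 1 + J))
          ≤ la k I' + Real.log (1 + 1 / y) + la l J +
            c0 * (lw k (I' + 1) + lw l J - SX (k + l) (I' + 1 + J)) := by linarith
        _ = (la k I' + la l J + c0 * (lw k I' + lw l J - SX (k + l) (I' + J))) +
            (Real.log (1 + 1 / y) + c0 * (y - x)) := by
          rw [hlw, hSX']; ring
        _ ≤ _ := by linarith
    · -- the last step was in the second coordinate
      have hJ : 1 ≤ J := by
        by_contra h
        have : J = 0 := by omega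
        subst this
        omega
      obtain ⟨J', rfl⟩ : ∃ J', J = J' + 1 := ⟨J - 1, by omega⟩
      set y : ℝ := ((J' + 1 : ℕ) : ℝ) / l with hy
      have hy0 : 0 < y := by positivity
      set c0 : ℝ := 1 / (y * (y + 1)) with hc0
      have hc00 : 0 ≤ c0 := by positivity
      have hcc : c ≤ c0 := by
        rw [hc0, le_div_iff₀ (by positivity)]
        linarith
      have hIy : (I : ℝ) / k ≤ y := by
        rw [hy, div_le_div_iff₀ hk0 hl0]
        have : (I * l : ℕ) ≤ (J' + 1) * k := by nlinarith
        exact_mod_cast this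
      have hJ'y : (J' : ℝ) / l ≤ y := by
        rw [hy]; push_cast; gcongr; linarith
      have hI0 : (0 : ℝ) ≤ (I : ℝ) / k := by positivity
      have hJ'0 : (0 : ℝ) ≤ (J' : ℝ) / l := by positivity
      have hyy : c0 * y * (y + 1) = 1 := by
        rw [hc0]; field_simp
      have hb2' : k * J' ≤ l * (I + 1) := by nlinarith
      have h1 := ih I J' (by omega) (by nlinarith) hb2' c0 hc00
        (by
          calc c0 * ((I : ℝ) / k) * ((I : ℝ) / k + 1) ≤ c0 * y * (y + 1) := by gcongr
            _ = 1 := hyy)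
        (by
          calc c0 * ((J' : ℝ) / l) * ((J' : ℝ) / l + 1) ≤ c0 * y * (y + 1) := by gcongr
            _ = 1 := hyy)
      have h2 := tangent x y hx hy0
      rw [← hc0] at h2
      have hla : la l (J' + 1) = la l J' + Real.log (1 + 1 / y) := by
        rw [la_succ, hy, one_div_div]; push_cast; rfl
      have hlw : lw l (J' + 1) = lw l J' + y := by
        rw [lw_succ _ _ hl, hy]; push_cast; rfl
      have hSX' : SX (k + l) (I + (J' + 1)) = SX (k + l) (I + J') + x := by
        have e1 : I + (J' + 1) = t + 1 := hIJ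
        have e2 : I + J' = t := by omega
        rw [e1, e2, hSX]
      have h3 : c * (lw k I + lw l (J' + 1) - SX (k + l) (I + (J' + 1))) ≤
          c0 * (lw k I + lw l (J' + 1) - SX (k + l) (I + (J' + 1))) :=
        mul_le_mul_of_nonneg_right hcc (by linarith)
      rw [hLB, hla]
      calc la k I + (la l J' + Real.log (1 + 1 / y)) +
            c * (lw k I + lw l (J' + 1) - SX (k + l) (I + (J' + 1)))
          ≤ la k I + (la l J' + Real.log (1 + 1 / y)) +
            c0 * (lw k I + lw l (J' + 1) - SX (k + l) (I + (J' + 1))) := by linarith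
        _ = (la k I + la l J' + c0 * (lw k I + lw l J' - SX (k + l) (I + J'))) +
            (Real.log (1 + 1 / y) + c0 * (y - x)) := by
          rw [hlw, hSX']; ring
        _ ≤ _ := by linarith

/-- the bound for all pairs -/
theorem la_le (k l : ℕ) (hk : 1 ≤ k) (hl : 1 ≤ l) (I J : ℕ) :
    la k I + la l J ≤ LB (k + l) (I + J) := by
  have hk0 : (0 : ℝ) < k := by exact_mod_cast hk
  have hl0 : (0 : ℝ) < l := by exact_mod_cast hl
  obtain ⟨⟨I0, J0⟩, hm, hmax⟩ := (antidiagonal (I + J)).exists_max_image
    (fun p => la k p.1 + la l p.2) ⟨(I, J), by simp⟩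
  have hsum : I0 + J0 = I + J := by simpa using hm
  have hb1 : l * I0 ≤ k * (J0 + 1) := by
    by_contra hcon
    push Not at hcon
    have hI0 : 1 ≤ I0 := by
      by_contra h
      have : I0 = 0 := by omega
      subst this
      omega
    obtain ⟨I', rfl⟩ : ∃ I', I0 = I' + 1 := ⟨I0 - 1, by omega⟩
    have h := hmax (I', J0 + 1) (by simp; omega)
    simp only [la_succ] at h
    have h2 : Real.log (1 + (k : ℝ) / (I' + 1)) < Real.log (1 + (l : ℝ) / (J0 + 1)) := by
      apply Real.log_lt_log (by positivity)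
      have : (k : ℝ) / (I' + 1) < (l : ℝ) / (J0 + 1) := by
        rw [div_lt_div_iff₀ (by positivity) (by positivity)]
        exact_mod_cast hcon
      linarith
    linarith
  have hb2 : k * J0 ≤ l * (I0 + 1) := by
    by_contra hcon
    push Not at hcon
    have hJ0 : 1 ≤ J0 := by
      by_contra h
      have : J0 = 0 := by omega
      subst this
      omega
    obtain ⟨J', rfl⟩ : ∃ J', J0 = J' + 1 := ⟨J0 - 1, by omega⟩
    have h := hmax (I0 + 1, J') (by simp; omega)
    simp only [la_succ] at h
    have h2 : Real.log (1 + (l : ℝ) / (J' + 1)) < Real.log (1 + (k : ℝ) / (I0 + 1)) := by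
      apply Real.log_lt_log (by positivity)
      have : (l : ℝ) / (J' + 1) < (k : ℝ) / (I0 + 1) := by
        rw [div_lt_div_iff₀ (by positivity) (by positivity)]
        exact_mod_cast hcon
      linarith
    linarith
  have h1 := main_balanced k l hk hl (I + J) I0 J0 hsum hb1 hb2 0 le_rfl (by simp) (by simp)
  have h2 := hmax (I, J) (by simp)
  simp only at h2
  simp only [zero_mul, add_zero] at h1
  linarith

theorem exp_la (k I : ℕ) : Real.exp (la k I) = ((k + I).choose k : ℝ) := by
  induction I with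
  | zero => simp [la]
  | succ I ih =>
    rw [la_succ, Real.exp_add, ih, Real.exp_log (by positivity)]
    have h := Nat.choose_mul_succ_eq (k + I) k
    have e : k + I + 1 - k = I + 1 := by omega
    rw [e] at h
    have h' : ((k + I).choose k : ℝ) * (k + I + 1) = ((k + I + 1).choose k : ℝ) * (I + 1) := by
      exact_mod_cast h
    have hI : (I : ℝ) + 1 ≠ 0 := by positivity
    rw [show k + (I + 1) = k + I + 1 by ring]
    field_simp
    linarith

/-- **The numerical inequality.** -/
theorem choose_bound (p q k l : ℕ) (hk : 1 ≤ k) (hl : 1 ≤ l) :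
    p.choose k * q.choose l ≤
      (p + q - (p + q) / (k + l)).choose (k + l - 1) * ((p + q) / (k + l)) := by
  rcases lt_or_ge p k with h | h
  · rw [Nat.choose_eq_zero_of_lt h]; simp
  rcases lt_or_ge q l with h' | h'
  · rw [Nat.choose_eq_zero_of_lt h']; simp
  obtain ⟨I, rfl⟩ := Nat.exists_eq_add_of_le h
  obtain ⟨J, rfl⟩ := Nat.exists_eq_add_of_le h'
  have h1 := Real.exp_le_exp.2 (la_le k l hk hl I J)
  rw [Real.exp_add, exp_la, exp_la, LB, Real.exp_add, exp_la, exp_la] at h1
  have e1 : (k + I + (l + J)) / (k + l) = (I + J) / (k + l) + 1 := by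
    rw [show k + I + (l + J) = I + J + (k + l) by ring, Nat.add_div_right _ (by omega)]
  have hle : (I + J) / (k + l) ≤ I + J := Nat.div_le_self _ _
  have e2 : k + I + (l + J) - ((I + J) / (k + l) + 1) =
      (k + l - 1) + (I + J - (I + J) / (k + l)) := by omega
  rw [e1, e2, mul_comm (((k + l - 1) + _).choose _)]
  have e3 : (1 + (I + J) / (k + l)).choose 1 = (I + J) / (k + l) + 1 := by
    rw [Nat.choose_one_right]; ring
  rw [e3] at h1
  exact_mod_cast h1

end Pool.Agent.Q216.IR
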