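import Mathlib

set_option autoImplicit false

/-!
# A numerical inequality

`C(p, k) * C(q, l) ≤ m * C(n - m, r - 1)` for `n = p + q`, `r = k + l`, `m = n / r`, `k, l ≥ 1`.
-/

namespace Pool.Agent.Q216.IR

open Finset

/-- the key quadratic inequality for integers -/
theorem quad (k l i j : ℤ) (hk : 1 ≤ k) (hl : 1 ≤ l) (hs0 : 0 ≤ i + j) (hs : i + j ≤ k + l - 1) :
    0 ≤ l * (l - 1) * (i * (i + 1)) + k * (k - 1) * (j * (j + 1)) - 2 * k * l * (i * j) := by
  have hii : ∀ x : ℤ, 0 ≤ x * (x + 1) := by
    intro x
    rcases le_or_gt 0 x with h | h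
    · positivity
    · nlinarith
  have h1 := hii i
  have h2 := hii j
  have hl1 : 0 ≤ l * (l - 1) := by nlinarith
  have hk1 : 0 ≤ k * (k - 1) := by nlinarith
  rcases le_or_gt (i * j) 0 with hij | hij
  · have := mul_nonneg hl1 h1
    have := mul_nonneg hk1 h2
    have hkl : 0 ≤ 2 * k * l := by positivity
    nlinarith [mul_nonneg hkl (neg_nonneg.2 hij)]
  · have hi : 0 < i ∧ 0 < j := by
      rcases lt_trichotomy i 0 with h | h | h
      · exfalso
        have : j < 0 := by nlinarith
        omega
      · simp [h] at hij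
      · exact ⟨h, by nlinarith⟩
    obtain ⟨hi, hj⟩ := hi
    -- case distinction
    rcases lt_or_ge i k with hik | hik
    · rcases lt_or_ge j l with hjl | hjl
      · -- AM-GM
        -- l(l-1)i(i+1) + k(k-1)j(j+1) ≥ 2klij  since ((k-1)(i+1))((l-1)(j+1)) ≥ (k i)(l j)
        have e1 : k * i ≤ (k - 1) * (i + 1) := by nlinarith
        have e2 : l * j ≤ (l - 1) * (j + 1) := by nlinarith
        have e3 : (k * i) * (l * j) ≤ ((k - 1) * (i + 1)) * ((l - 1) * (j + 1)) := by
          apply mul_le_mul e1 e2 (by positivity)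
          have : 0 ≤ k * i := by positivity
          linarith
        set X := l * (l - 1) * (i * (i + 1)) with hX
        set Y := k * (k - 1) * (j * (j + 1)) with hY
        have hX0 : 0 ≤ X := mul_nonneg hl1 h1
        have hY0 : 0 ≤ Y := mul_nonneg hk1 h2
        have hXY : (k * l * (i * j)) ^ 2 ≤ X * Y := by
          have : X * Y = (k * l * (i * j)) * (((k - 1) * (i + 1)) * ((l - 1) * (j + 1))) := by
            rw [hX, hY]; ring
          rw [this, sq]
          apply mul_le_mul_of_nonneg_left _ (by positivity)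
          calc k * l * (i * j) = (k * i) * (l * j) := by ring
            _ ≤ _ := e3
        have h4 : (2 * (k * l * (i * j))) ^ 2 ≤ (X + Y) ^ 2 := by
          nlinarith [sq_nonneg (X - Y)]
        have h5 := abs_le_of_sq_le_sq h4 (by positivity)
        have h6 := (abs_le.1 (abs_le_of_sq_le_sq h4 (by positivity))).2
        linarith
      · -- j ≥ l, i ≤ k - 1
        obtain ⟨e, he⟩ := Int.le.dest hjl
        have hd : ∃ d : ℕ, i + d = k - 1 := by
          obtain ⟨d, hd⟩ := Int.le.dest (show i ≤ k - 1 by omega)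
          exact ⟨d, hd⟩
        obtain ⟨d, hd⟩ := hd
        have hk' : k = i + d + 1 := by omega
        have hj' : j = l + e := by omega
        have hed : (e : ℤ) ≤ d := by omega
        have he0 : (0 : ℤ) ≤ e := by positivity
        have hd0 : (0 : ℤ) ≤ d := by positivity
        subst hj'
        rw [hk']
        have key : l * (l - 1) * (i * (i + 1)) + (i + d + 1) * (i + d + 1 - 1) * ((l + e) * (l + e + 1))
            - 2 * (i + d + 1) * l * (i * (l + e)) =
            l * d * ((l + 1) * (d + 1) + 2 * i) + (i + d + 1) * e * ((i + d) * (2 * l + e + 1) - 2 * l * i) := by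
          ring
        rw [key]
        have : 0 ≤ (i + d) * (2 * l + e + 1) - 2 * l * i := by nlinarith [mul_nonneg hd0 (by linarith : (0:ℤ) ≤ l), mul_nonneg hi.le he0]
        positivity
    · -- i ≥ k, so j ≤ l - 1
      obtain ⟨e, he⟩ := Int.le.dest hik
      have hd : ∃ d : ℕ, j + d = l - 1 := by
        obtain ⟨d, hd⟩ := Int.le.dest (show j ≤ l - 1 by omega)
        exact ⟨d, hd⟩
      obtain ⟨d, hd⟩ := hd
      have hl' : l = j + d + 1 := by omega
      have hi' : i = k + e := by omega
      have hed : (e : ℤ) ≤ d := by omega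
      have he0 : (0 : ℤ) ≤ e := by positivity
      have hd0 : (0 : ℤ) ≤ d := by positivity
      subst hi'
      rw [hl']
      have key : (j + d + 1) * (j + d + 1 - 1) * ((k + e) * (k + e + 1)) + k * (k - 1) * (j * (j + 1))
          - 2 * k * (j + d + 1) * ((k + e) * j) =
          k * d * ((k + 1) * (d + 1) + 2 * j) + (j + d + 1) * e * ((j + d) * (2 * k + e + 1) - 2 * k * j) := by
        ring
      rw [key]
      have : 0 ≤ (j + d) * (2 * k + e + 1) - 2 * k * j := by nlinarith [mul_nonneg hd0 (by linarith : (0:ℤ) ≤ k), mul_nonneg hj.le he0]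
      positivity

end Pool.Agent.Q216.IR
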